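import Pool.Agent.H65.PP.OF

/-!
helper65 (project MP_28250c_PP, block F): `StatementPHP` from `StatementOF`.
-/

set_option autoImplicit false

namespace PPh

open ACpFrege

theorem php_mono {m m' n : ℕ} (h : m ≤ m') : ∀ C ∈ php m n, C ∈ php m' n := by
  intro C hC
  unfold php at hC ⊢
  rw [List.mem_append] at hC ⊢
  rcases hC with hC | hC
  · left
    obtain ⟨i, hi, rfl⟩ := List.mem_map.1 hC
    exact List.mem_map.2 ⟨i, List.mem_range.2 (lt_of_lt_of_le (List.mem_range.1 hi) h), rfl⟩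
  · right
    obtain ⟨j, hj, hC⟩ := List.mem_flatMap.1 hC
    obtain ⟨i', hi', hC⟩ := List.mem_flatMap.1 hC
    exact List.mem_flatMap.2 ⟨j, hj, List.mem_flatMap.2 ⟨i', List.mem_range.2 (lt_of_lt_of_le (List.mem_range.1 hi') h), hC⟩⟩

theorem refutes_mono {p : ℕ} {S : List (Rule p)} {d : ℕ} {F F' : CNF} {π : List (Fm p)} (h : ∀ C ∈ F, C ∈ F')
    (hπ : Refutes S d F π) : Refutes S d F' π := by
  refine ⟨hπ.1, fun i hi => ?_, hπ.2.2⟩
  rcases hπ.2.1 i hi with ⟨C, hC, e⟩ | h'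
  · exact Or.inl ⟨C, h C hC, e⟩
  · exact Or.inr h'

theorem refutes_of {p : ℕ} {S : List (Rule p)} {d m n m' : ℕ} {π : List (Fm p)} (h : m ≤ m')
    (hπ : Refutes S d (php m n) π) : Refutes S d (ofphp m' n) π :=
  refutes_mono (fun C hC => by
    unfold ofphp
    exact List.mem_append.2 (Or.inl (php_mono h C hC))) hπ

/-- The exponent. -/
noncomputable def cexp (p : ℕ) : ℝ := Real.log 2 / (200 * Real.log (2 * p + 4))

/-- From the bound for `F l n` (all `l`, `n` with `(2p+4)^(5l) ≤ n`) to the form with an exponent of `n`, for every CNF `G` contained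
in `F l n`. -/
theorem php_gen {p : ℕ} (hp : p.Prime) (S : List (Rule p)) (F : ℕ → ℕ → CNF)
    (h0 : ∃ l₀ : ℕ, ∀ l ≥ l₀, ∀ d : ℕ, (l : ℝ) ^ (d + 1) ≤ 2 ^ ((1 : ℝ) / 20 * l) → ∀ n : ℕ, (2 * p + 4) ^ (5 * l) ≤ n →
      ∀ π : List (Fm p), Refutes S d (F l n) π → (2 : ℝ) ^ ((2 : ℝ) ^ ((1 : ℝ) / 20 * l / (d + 1))) ≤ psize π) :
    0 < cexp p ∧ ∃ n₀ : ℕ, ∀ n ≥ n₀, ∀ d : ℕ, Real.log n ^ (d + 1) ≤ (n : ℝ) ^ cexp p →
      ∃ l : ℕ, (2 * p + 4) ^ (5 * l) ≤ n ∧ (n : ℝ) ^ cexp p ≤ ((p ^ l : ℕ) : ℝ) ∧ ∀ G : CNF, (∀ C ∈ G, C ∈ F l n) →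
        ∀ π : List (Fm p), Refutes S d G π → (2 : ℝ) ^ ((n : ℝ) ^ (cexp p / (d + 1))) ≤ psize π := by
  obtain ⟨l0, hl0⟩ := h0
  set B : ℕ := (2 * p + 4) ^ 5 with hB
  have hB1 : 1 < B := Nat.one_lt_pow (by norm_num) (by omega)
  have hB4 : 4 ≤ B := by
    calc 4 ≤ 2 * p + 4 := by omega
      _ ≤ (2 * p + 4) ^ 5 := Nat.le_self_pow (by norm_num) _
  have hBr : (4 : ℝ) ≤ B := by exact_mod_cast hB4
  have hl2 : 0 < Real.log 2 := Real.log_pos (by norm_num)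
  have hlB : 1 ≤ Real.log B := by
    rw [Real.le_log_iff_exp_le (by linarith)]
    linarith [Real.exp_one_lt_d9]
  have hlB0 : 0 < Real.log B := by linarith
  have hlB5 : Real.log B = 5 * Real.log (2 * p + 4) := by
    rw [hB]
    push_cast
    rw [Real.log_pow]
    norm_num
  have hc : cexp p = 1 / 20 * (Real.log 2 / Real.log B) / 2 := by
    have : Real.log (2 * (p : ℝ) + 4) ≠ 0 := by
      intro h
      rw [h] at hlB5
      linarith
    rw [hlB5]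
    unfold cexp
    field_simp
    norm_num
  have hcp : 0 < cexp p := by
    rw [hc]
    positivity
  refine ⟨hcp, B ^ (l0 + 1), fun n hn d hd => ?_⟩
  have hn1 : 1 ≤ n := le_trans (Nat.one_le_pow _ _ (by omega)) hn
  have hnr : (1 : ℝ) ≤ n := by exact_mod_cast hn1
  have hnr0 : (0 : ℝ) < n := by linarith
  set l : ℕ := Nat.log B n with hl
  have h1 : B ^ l ≤ n := Nat.pow_log_le_self B (by omega)
  have h2 : n < B ^ (l + 1) := Nat.lt_pow_succ_log_self hB1 n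
  have hl1 : l0 + 1 ≤ l := (Nat.le_log_iff_pow_le hB1 (by omega)).2 hn
  have hlr : (1 : ℝ) ≤ l := by exact_mod_cast (by omega : 1 ≤ l)
  have hlog1 : (l : ℝ) * Real.log B ≤ Real.log n := by
    rw [← Real.log_pow]
    exact Real.log_le_log (by positivity) (by exact_mod_cast h1)
  have hlog2 : Real.log n ≤ ((l : ℝ) + 1) * Real.log B := by
    have : Real.log n ≤ Real.log ((B : ℝ) ^ (l + 1)) := Real.log_le_log hnr0 (by exact_mod_cast h2.le)
    rw [Real.log_pow] at this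
    push_cast at this
    exact this
  have hln : (l : ℝ) ≤ Real.log n := by nlinarith
  have hnc : (n : ℝ) ^ cexp p ≤ (2 : ℝ) ^ ((1 : ℝ) / 20 * l) := by
    rw [Real.rpow_def_of_pos hnr0, Real.rpow_def_of_pos (by norm_num)]
    refine Real.exp_le_exp.2 ?_
    have e1 : Real.log n * cexp p ≤ ((l : ℝ) + 1) * Real.log B * cexp p := mul_le_mul_of_nonneg_right hlog2 hcp.le
    have e2 : ((l : ℝ) + 1) * Real.log B * cexp p = ((l : ℝ) + 1) / 2 * (1 / 20 * Real.log 2) := by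
      rw [hc]
      field_simp
    have e3 : ((l : ℝ) + 1) / 2 * (1 / 20 * Real.log 2) ≤ (l : ℝ) * (1 / 20 * Real.log 2) :=
      mul_le_mul_of_nonneg_right (by linarith) (by positivity)
    calc Real.log n * cexp p ≤ (l : ℝ) * (1 / 20 * Real.log 2) := by linarith
      _ = Real.log 2 * (1 / 20 * l) := by ring
  have h21 : (2 : ℝ) ^ ((1 : ℝ) / 20 * l) ≤ ((p ^ l : ℕ) : ℝ) := by
    calc (2 : ℝ) ^ ((1 : ℝ) / 20 * l) ≤ (2 : ℝ) ^ ((l : ℝ)) := by
          refine Real.rpow_le_rpow_of_exponent_le (by norm_num) ?_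
          nlinarith
      _ = (2 : ℝ) ^ l := Real.rpow_natCast _ _
      _ ≤ (p : ℝ) ^ l := pow_le_pow_left₀ (by norm_num) (by exact_mod_cast hp.two_le) l
      _ = ((p ^ l : ℕ) : ℝ) := by push_cast; rfl
  have hdl : (l : ℝ) ^ (d + 1) ≤ (2 : ℝ) ^ ((1 : ℝ) / 20 * l) := by
    calc (l : ℝ) ^ (d + 1) ≤ Real.log n ^ (d + 1) := pow_le_pow_left₀ (Nat.cast_nonneg _) hln _
      _ ≤ (n : ℝ) ^ cexp p := hd
      _ ≤ _ := hnc
  have hB5 : (2 * p + 4) ^ (5 * l) ≤ n := by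
    rw [pow_mul]
    exact h1
  refine ⟨l, hB5, hnc.trans h21, fun G hGF π hπ => ?_⟩
  refine le_trans ?_ (hl0 l (by omega) d hdl n hB5 π (refutes_mono hGF hπ))
  refine Real.rpow_le_rpow_of_exponent_le (by norm_num) ?_
  have hd0 : (0 : ℝ) < (d : ℝ) + 1 := by positivity
  have e1 : (n : ℝ) ^ (cexp p / (d + 1)) = ((n : ℝ) ^ cexp p) ^ (1 / ((d : ℝ) + 1)) := by
    rw [← Real.rpow_mul hnr0.le]
    congr 1
    ring
  have e2 : (2 : ℝ) ^ ((1 : ℝ) / 20 * l / (d + 1)) = ((2 : ℝ) ^ ((1 : ℝ) / 20 * l)) ^ (1 / ((d : ℝ) + 1)) := by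
    rw [← Real.rpow_mul (by norm_num)]
    congr 1
    ring
  rw [e1, e2]
  exact Real.rpow_le_rpow (by positivity) hnc (by positivity)

/-- Explicit form of `StatementPHP`. -/
def StatementPHPx : Prop :=
  ∀ p : ℕ, p.Prime → ∀ S : List (Rule p), (∀ R ∈ S, R.Sound) → ∃ n₀ : ℕ, ∀ n ≥ n₀, ∀ d : ℕ,
    Real.log n ^ (d + 1) ≤ (n : ℝ) ^ (Real.log 2 / (200 * Real.log (2 * p + 4))) → ∀ m : ℕ, n < m →
      (m : ℝ) ≤ n + (n : ℝ) ^ (Real.log 2 / (200 * Real.log (2 * p + 4))) →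
      ∀ π : List (Fm p), Refutes S d (php m n) π →
        (2 : ℝ) ^ ((n : ℝ) ^ (Real.log 2 / (200 * Real.log (2 * p + 4)) / (d + 1))) ≤ psize π

theorem phpx_of (hG : ∀ (p : ℕ) [Fact p.Prime], OutG p) (hM : ∀ (p : ℕ) [Fact p.Prime], OutM p) : StatementPHPx := by
  intro p hp S hS
  have : Fact p.Prime := ⟨hp⟩
  obtain ⟨_, n₀, h⟩ := php_gen hp S (fun l n => ofphp (n + p ^ l) n)
    (of_gen hp (H := fun n F L A R del => HasGm p n F L A R del) (hG p) (fun l n => ofphp (n + p ^ l) n)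
      (fun l n => (n + p ^ l) * n) (hM p) S hS)
  refine ⟨n₀, fun n hn d hd m hnm hm π hπ => ?_⟩
  obtain ⟨l, h1, h2, h3⟩ := h n hn d hd
  have hmn : m ≤ n + p ^ l := by
    have : (m : ℝ) ≤ ((n + p ^ l : ℕ) : ℝ) := by
      push_cast
      push_cast at h2
      unfold cexp at h2
      linarith
    exact_mod_cast this
  refine h3 (php m n) (fun C hC => ?_) π hπ
  show C ∈ ofphp (n + p ^ l) n
  unfold ofphp
  exact List.mem_append.2 (Or.inl (php_mono hmn C hC))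

theorem php_of (h : StatementOF) : StatementPHP := by
  intro p hp
  obtain ⟨c0, hc0, hS0⟩ := h p hp
  set B : ℕ := (2 * p + 4) ^ 5 with hB
  set c1 : ℝ := min c0 1 with hc1
  have hc1p : 0 < c1 := lt_min hc0 one_pos
  have hc10 : c1 ≤ c0 := min_le_left _ _
  have hc11 : c1 ≤ 1 := min_le_right _ _
  have hB1 : 1 < B := Nat.one_lt_pow (by norm_num) (by omega)
  have hB4 : 4 ≤ B := by
    calc 4 ≤ 2 * p + 4 := by omega
      _ ≤ (2 * p + 4) ^ 5 := Nat.le_self_pow (by norm_num) _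
  have hBr : (4 : ℝ) ≤ B := by exact_mod_cast hB4
  have hl2 : 0 < Real.log 2 := Real.log_pos (by norm_num)
  have hlB : 1 ≤ Real.log B := by
    rw [Real.le_log_iff_exp_le (by linarith)]
    linarith [Real.exp_one_lt_d9]
  have hlB0 : 0 < Real.log B := by linarith
  refine ⟨c1 * (Real.log 2 / Real.log B) / 2, by positivity, fun S hS => ?_⟩
  set c : ℝ := c1 * (Real.log 2 / Real.log B) / 2 with hc
  obtain ⟨l0, hl0⟩ := hS0 S hS
  refine ⟨B ^ (l0 + 1), fun n hn d hd m hnm hm π hπ => ?_⟩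
  have hn1 : 1 ≤ n := le_trans (Nat.one_le_pow _ _ (by omega)) hn
  have hnr : (1 : ℝ) ≤ n := by exact_mod_cast hn1
  have hnr0 : (0 : ℝ) < n := by linarith
  set l : ℕ := Nat.log B n with hl
  have h1 : B ^ l ≤ n := Nat.pow_log_le_self B (by omega)
  have h2 : n < B ^ (l + 1) := Nat.lt_pow_succ_log_self hB1 n
  have hl1 : l0 + 1 ≤ l := (Nat.le_log_iff_pow_le hB1 (by omega)).2 hn
  have hlr : (1 : ℝ) ≤ l := by exact_mod_cast (by omega : 1 ≤ l)
  have hlog1 : (l : ℝ) * Real.log B ≤ Real.log n := by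
    rw [← Real.log_pow]
    exact Real.log_le_log (by positivity) (by exact_mod_cast h1)
  have hlog2 : Real.log n ≤ ((l : ℝ) + 1) * Real.log B := by
    have : Real.log n ≤ Real.log ((B : ℝ) ^ (l + 1)) := Real.log_le_log hnr0 (by exact_mod_cast h2.le)
    rw [Real.log_pow] at this
    push_cast at this
    exact this
  have hln : (l : ℝ) ≤ Real.log n := by nlinarith
  have hnc : (n : ℝ) ^ c ≤ (2 : ℝ) ^ (c1 * l) := by
    rw [Real.rpow_def_of_pos hnr0, Real.rpow_def_of_pos (by norm_num)]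
    refine Real.exp_le_exp.2 ?_
    have e1 : Real.log n * c ≤ ((l : ℝ) + 1) * Real.log B * c := mul_le_mul_of_nonneg_right hlog2 (by positivity)
    have e2 : ((l : ℝ) + 1) * Real.log B * c = ((l : ℝ) + 1) / 2 * (c1 * Real.log 2) := by
      rw [hc]
      field_simp
    have e3 : ((l : ℝ) + 1) / 2 * (c1 * Real.log 2) ≤ (l : ℝ) * (c1 * Real.log 2) :=
      mul_le_mul_of_nonneg_right (by linarith) (by positivity)
    calc Real.log n * c ≤ (l : ℝ) * (c1 * Real.log 2) := by linarith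
      _ = Real.log 2 * (c1 * l) := by ring
  have h20 : (2 : ℝ) ^ (c1 * l) ≤ (2 : ℝ) ^ (c0 * l) :=
    Real.rpow_le_rpow_of_exponent_le (by norm_num) (mul_le_mul_of_nonneg_right hc10 (Nat.cast_nonneg _))
  have h21 : (2 : ℝ) ^ (c1 * l) ≤ ((p ^ l : ℕ) : ℝ) := by
    calc (2 : ℝ) ^ (c1 * l) ≤ (2 : ℝ) ^ ((l : ℝ)) := by
          refine Real.rpow_le_rpow_of_exponent_le (by norm_num) ?_
          nlinarith
      _ = (2 : ℝ) ^ l := Real.rpow_natCast _ _
      _ ≤ (p : ℝ) ^ l := pow_le_pow_left₀ (by norm_num) (by exact_mod_cast hp.two_le) l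
      _ = ((p ^ l : ℕ) : ℝ) := by push_cast; rfl
  have hmn : m ≤ n + p ^ l := by
    have : (m : ℝ) ≤ ((n + p ^ l : ℕ) : ℝ) := by
      push_cast
      push_cast at h21
      linarith
    exact_mod_cast this
  have hdl : (l : ℝ) ^ (d + 1) ≤ (2 : ℝ) ^ (c0 * l) := by
    calc (l : ℝ) ^ (d + 1) ≤ Real.log n ^ (d + 1) := pow_le_pow_left₀ (Nat.cast_nonneg _) hln _
      _ ≤ (n : ℝ) ^ c := hd
      _ ≤ _ := hnc.trans h20
  have hB5 : (2 * p + 4) ^ (5 * l) ≤ n := by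
    rw [pow_mul]
    exact h1
  refine le_trans ?_ (hl0 l (by omega) d hdl n hB5 π (refutes_of hmn hπ))
  refine Real.rpow_le_rpow_of_exponent_le (by norm_num) ?_
  have hd0 : (0 : ℝ) < (d : ℝ) + 1 := by positivity
  have e1 : (n : ℝ) ^ (c / (d + 1)) = ((n : ℝ) ^ c) ^ (1 / ((d : ℝ) + 1)) := by
    rw [← Real.rpow_mul hnr0.le]
    congr 1
    ring
  have e2 : (2 : ℝ) ^ (c0 * l / (d + 1)) = ((2 : ℝ) ^ (c0 * l)) ^ (1 / ((d : ℝ) + 1)) := by
    rw [← Real.rpow_mul (by norm_num)]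
    congr 1
    ring
  rw [e1, e2]
  exact Real.rpow_le_rpow (by positivity) (hnc.trans h20) (by positivity)

end PPh
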