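import Pool.Agent.H65.PP.OF
import Pool.Agent.H65.PP.PHP

/-!
helper65 (project MP_28250c_PP): block F.
-/

set_option autoImplicit false

namespace PPh

open ACpFrege

theorem blockF (hG : ∀ (p : ℕ) [Fact p.Prime], OutG p) (hM : ∀ (p : ℕ) [Fact p.Prime], OutM p) :
    StatementPHP ∧ StatementOF :=
  ⟨php_of (of_of hG hM), of_of hG hM⟩

theorem blockFx (hG : ∀ (p : ℕ) [Fact p.Prime], OutG p) (hM : ∀ (p : ℕ) [Fact p.Prime], OutM p) :
    StatementPHPx ∧ StatementOFx :=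
  ⟨phpx_of hG hM, ofx_of hG hM⟩

end PPh
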