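import Pool.Agent.H94.PP.Defs

/-!
helper65 (project MP_28250c_PP, block F): `StatementOF` from `OutG` and `OutM` (numerics).
-/

set_option autoImplicit false

namespace PPh

open ACpFrege

/-- Exponentials beat polynomials. -/
private theorem ev_exp {a : ℝ} (ha : 1 < a) (B : ℝ) : ∃ l0 : ℕ, ∀ l ≥ l0, B * (l : ℝ) ≤ a ^ l := by
  have h := tendsto_pow_const_div_const_pow_of_one_lt 1 ha
  have h2 : ∀ᶠ n : ℕ in Filter.atTop, (n : ℝ) ^ 1 / a ^ n < 1 / (|B| + 1) := h.eventually (gt_mem_nhds (by positivity))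
  obtain ⟨l0, h0⟩ := Filter.eventually_atTop.mp h2
  refine ⟨l0, fun l hl => ?_⟩
  have h3 := h0 l hl
  have hp : 0 < a ^ l := pow_pos (by linarith) l
  rw [div_lt_div_iff₀ hp (by positivity), pow_one, one_mul] at h3
  nlinarith [le_abs_self B, Nat.cast_nonneg (α := ℝ) l]

/-- The exponential inequality. -/
private theorem expo2 {C b l : ℕ} (hC : 1 ≤ C) (hb : 1 ≤ b) {y : ℝ} (hy1 : 1 ≤ y) (hly : (l : ℝ) ≤ y)
    (hY : Real.log (2 * C) + 15 * Real.log b + Real.log 2 < y * Real.log (3 / 2)) {N t : ℕ} (hN : (N : ℝ) ≤ 2 ^ y + 1)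
    (ht : y ^ 2 ≤ t) : C * N * b ^ (15 * l) * 2 ^ t < 3 ^ t := by
  have hC' : (1 : ℝ) ≤ C := by exact_mod_cast hC
  have hb' : (1 : ℝ) ≤ b := by exact_mod_cast hb
  have hl32 : 0 < Real.log (3 / 2) := Real.log_pos (by norm_num)
  have hlC : 0 ≤ Real.log (2 * C) := Real.log_nonneg (by linarith)
  have hlb : 0 ≤ Real.log b := Real.log_nonneg hb'
  have hl2 : 0 ≤ Real.log 2 := Real.log_nonneg (by norm_num)
  have hkey : 2 * (C : ℝ) * (b : ℝ) ^ (15 * l) * 2 ^ y < (3 / 2) ^ t := by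
    have hb0 : (0 : ℝ) < b := by linarith
    have hpos : 0 < 2 * (C : ℝ) * (b : ℝ) ^ (15 * l) * 2 ^ y := by positivity
    rw [← Real.log_lt_log_iff hpos (by positivity)]
    rw [Real.log_mul (by positivity) (by positivity), Real.log_mul (by positivity) (by positivity), Real.log_pow,
      Real.log_rpow (by norm_num), Real.log_pow]
    have h1 : y ^ 2 * Real.log (3 / 2) ≤ t * Real.log (3 / 2) := mul_le_mul_of_nonneg_right ht hl32.le
    have h2 : y * (Real.log (2 * C) + 15 * Real.log b + Real.log 2) < y * (y * Real.log (3 / 2)) :=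
      mul_lt_mul_of_pos_left hY (by linarith)
    have h3 : Real.log (2 * C) ≤ y * Real.log (2 * C) := by nlinarith
    have h4 : (l : ℝ) * Real.log b ≤ y * Real.log b := mul_le_mul_of_nonneg_right hly hlb
    push_cast
    nlinarith
  have h2y : (1 : ℝ) ≤ 2 ^ y := Real.one_le_rpow (by norm_num) (by linarith)
  have hN2 : (N : ℝ) ≤ 2 * 2 ^ y := by linarith
  have h5 : (C : ℝ) * N * (b : ℝ) ^ (15 * l) ≤ 2 * (C : ℝ) * (b : ℝ) ^ (15 * l) * 2 ^ y := by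
    calc (C : ℝ) * N * (b : ℝ) ^ (15 * l) ≤ C * (2 * 2 ^ y) * (b : ℝ) ^ (15 * l) := by gcongr
      _ = _ := by ring
  have h6 : (C : ℝ) * N * (b : ℝ) ^ (15 * l) * 2 ^ t < 3 ^ t := by
    calc (C : ℝ) * N * (b : ℝ) ^ (15 * l) * 2 ^ t < (3 / 2) ^ t * 2 ^ t :=
          mul_lt_mul_of_pos_right (h5.trans_lt hkey) (by positivity)
      _ = 3 ^ t := by rw [← mul_pow]; norm_num
  exact_mod_cast h6

/-- The length. -/
private theorem lens2 {d p C l : ℕ} (hp : 1 ≤ p) {y : ℝ} (hy : y ^ (d + 1) = (2 : ℝ) ^ ((1 : ℝ) / 20 * l)) (hy1 : 1 ≤ y)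
    (hlp : 4 * (p : ℝ) ^ 2 ≤ y) {t : ℕ} (ht : (t : ℝ) ≤ y ^ 2 + 1) :
    (C : ℝ) * (p * t) ^ (d + 2) ≤ C * ((2 : ℝ) ^ ((1 : ℝ) / 4)) ^ l := by
  have hp' : (1 : ℝ) ≤ p := by exact_mod_cast hp
  have ht2 : (t : ℝ) ≤ 2 * y ^ 2 := by nlinarith
  have h1 : ((p : ℝ) * t) ^ (d + 2) ≤ (y ^ (d + 1)) ^ 5 := by
    calc ((p : ℝ) * t) ^ (d + 2) ≤ (p * (2 * y ^ 2)) ^ (d + 2) := by gcongr
      _ = (2 * p) ^ (d + 2) * y ^ (2 * (d + 2)) := by
        rw [show (p : ℝ) * (2 * y ^ 2) = (2 * p) * y ^ 2 by ring, mul_pow, ← pow_mul]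
      _ ≤ (2 * p) ^ (2 * (d + 1)) * y ^ (4 * (d + 1)) := by
        refine mul_le_mul ?_ ?_ (by positivity) (by positivity)
        · exact pow_le_pow_right₀ (by linarith) (by omega)
        · exact pow_le_pow_right₀ hy1 (by omega)
      _ = ((4 * (p : ℝ) ^ 2) ^ (d + 1)) * y ^ (4 * (d + 1)) := by
        rw [pow_mul]
        congr 2
        ring
      _ ≤ y ^ (d + 1) * y ^ (4 * (d + 1)) := by gcongr
      _ = (y ^ (d + 1)) ^ 5 := by ring
  have h2 : (y ^ (d + 1)) ^ 5 = ((2 : ℝ) ^ ((1 : ℝ) / 4)) ^ l := by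
    rw [hy, ← Real.rpow_natCast, ← Real.rpow_natCast, ← Real.rpow_mul (by norm_num), ← Real.rpow_mul (by norm_num)]
    congr 1
    push_cast
    ring
  rw [h2] at h1
  exact mul_le_mul_of_nonneg_left h1 (Nat.cast_nonneg _)

/-- Natural number part: all bounds from `32 * b * l * L + 2 ≤ 2^(l/2)`. -/
private theorem natpart {C b l L N : ℕ} (hb : 1 ≤ b) (hl : 1 ≤ l) (hL : 1 ≤ L) (hC : C ≤ L) (hN : N ≤ 2 ^ L)
    (h : 32 * b * l * L + 2 ≤ 2 ^ (l / 2)) :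
    L ≤ 2 ^ (l / 2) ∧ C * N ^ 2 * L ≤ 2 ^ (2 ^ (l / 2) / 2) ∧ 16 * L * (2 * (b ^ (5 * l)) ^ 2) ^ L ≤ 2 ^ (2 ^ (l / 2) / 2) := by
  have h1 : 16 * (b * l * L) ≤ 2 ^ (l / 2) / 2 := by
    have : 32 * b * l * L = 2 * (16 * (b * l * L)) := by ring
    omega
  have hbl : 1 ≤ b * l := Nat.mul_pos hb hl
  have hLb : L ≤ b * l * L := Nat.le_mul_of_pos_left _ hbl
  have h2 : 2 ^ (16 * (b * l * L)) ≤ 2 ^ (2 ^ (l / 2) / 2) := Nat.pow_le_pow_right (by norm_num) h1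
  have hLL : L ≤ 2 ^ L := Nat.lt_two_pow_self.le
  refine ⟨?_, ?_, ?_⟩
  · have : 32 * b * l * L = 32 * (b * l * L) := by ring
    omega
  · calc C * N ^ 2 * L ≤ 2 ^ L * (2 ^ L) ^ 2 * 2 ^ L :=
          Nat.mul_le_mul (Nat.mul_le_mul (hC.trans hLL) (Nat.pow_le_pow_left hN 2)) hLL
      _ = 2 ^ (4 * L) := by ring
      _ ≤ 2 ^ (16 * (b * l * L)) := Nat.pow_le_pow_right (by norm_num) (by omega)
      _ ≤ _ := h2
  · have hbb : b ≤ 2 ^ b := Nat.lt_two_pow_self.le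
    have h3 : 2 * (b ^ (5 * l)) ^ 2 ≤ 2 ^ (11 * (b * l)) := by
      calc 2 * (b ^ (5 * l)) ^ 2 ≤ 2 * ((2 ^ b) ^ (5 * l)) ^ 2 :=
            Nat.mul_le_mul_left _ (Nat.pow_le_pow_left (Nat.pow_le_pow_left hbb _) 2)
        _ = 2 ^ (10 * (b * l) + 1) := by
          rw [← pow_mul, ← pow_mul, pow_succ, mul_comm]
          congr 2
          ring
        _ ≤ 2 ^ (11 * (b * l)) := Nat.pow_le_pow_right (by norm_num) (by omega)
    calc 16 * L * (2 * (b ^ (5 * l)) ^ 2) ^ L ≤ (2 ^ 4 * 2 ^ L) * (2 ^ (11 * (b * l))) ^ L :=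
          Nat.mul_le_mul (Nat.mul_le_mul (by norm_num) hLL) (Nat.pow_le_pow_left h3 L)
      _ = 2 ^ (4 + L + 11 * (b * l) * L) := by
        rw [← pow_mul, ← pow_add, ← pow_add]
      _ ≤ 2 ^ (16 * (b * l * L)) := by
        refine Nat.pow_le_pow_right (by norm_num) ?_
        have : 11 * (b * l) * L = 11 * (b * l * L) := by ring
        omega
      _ ≤ _ := h2

/-- The interface of Theorem G for an arbitrary notion `H` of graded module. -/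
def OutGen (p : ℕ) (H : ℕ → CNF → ℕ → ℕ → ℕ → ℕ → Prop) : Prop :=
  ∀ S : List (Rule p), (∀ R ∈ S, R.Sound) → ∃ C : ℕ, ∀ (d n : ℕ) (F : CNF) (L A R del N t : ℕ), H n F L A R del →
    1 ≤ t → C * (p * t) ^ (d + 2) ≤ L → C * N * A * 2 ^ t < 3 ^ t → C * N ^ 2 * L ≤ R → 16 * L * del ≤ R →
    ∀ π : List (Fm p), Refutes S d F π → N < psize π

/-- The numerics, for an arbitrary family `F l n` of CNFs. -/
theorem of_gen {p : ℕ} (hp : p.Prime) {H : ℕ → CNF → ℕ → ℕ → ℕ → ℕ → Prop} (hG : OutGen p H) (F : ℕ → ℕ → CNF) (nv : ℕ → ℕ → ℕ)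
    (hM : ∃ l₀ : ℕ, ∀ l ≥ l₀, ∀ n L : ℕ, (2 * p + 4) ^ (5 * l) ≤ n → L ≤ 2 ^ (l / 2) →
      H (nv l n) (F l n) L ((2 * p + 4) ^ (15 * l)) (2 ^ (2 ^ (l / 2) / 2)) ((2 * ((2 * p + 4) ^ (5 * l)) ^ 2) ^ L))
    (S : List (Rule p)) (hS : ∀ R ∈ S, R.Sound) : ∃ l₀ : ℕ, ∀ l ≥ l₀, ∀ d : ℕ,
      (l : ℝ) ^ (d + 1) ≤ 2 ^ ((1 : ℝ) / 20 * l) → ∀ n : ℕ, (2 * p + 4) ^ (5 * l) ≤ n →
      ∀ π : List (Fm p), Refutes S d (F l n) π → (2 : ℝ) ^ ((2 : ℝ) ^ ((1 : ℝ) / 20 * l / (d + 1))) ≤ psize π := by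
  obtain ⟨C0, hC0⟩ := hG S hS
  obtain ⟨l1, hl1⟩ := hM
  set C : ℕ := C0 + 1 with hC
  set b : ℕ := 2 * p + 4 with hb
  have hb1 : 1 ≤ b := by omega
  have hl32 : 0 < Real.log (3 / 2) := Real.log_pos (by norm_num)
  have ha : (1 : ℝ) < (2 : ℝ) ^ ((1 : ℝ) / 4) := Real.one_lt_rpow (by norm_num) (by norm_num)
  obtain ⟨l2, hl2⟩ := ev_exp ha (68 * b * C)
  obtain ⟨l3, hl3⟩ := exists_nat_ge (max (max 1 (4 * (p : ℝ) ^ 2))
    ((Real.log (2 * C) + 15 * Real.log b + Real.log 2 + 1) / Real.log (3 / 2)))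
  refine ⟨max (max l1 l2) (max l3 1), fun l hl d hd n hn π hπ => ?_⟩
  have hl0 : 1 ≤ l := by omega
  have hlr : (1 : ℝ) ≤ l := by exact_mod_cast hl0
  have hl3r : max (max 1 (4 * (p : ℝ) ^ 2)) ((Real.log (2 * C) + 15 * Real.log b + Real.log 2 + 1) / Real.log (3 / 2)) ≤ (l : ℝ) := by
    refine hl3.trans ?_
    have : l3 ≤ l := by omega
    exact_mod_cast this
  set y : ℝ := (2 : ℝ) ^ ((1 : ℝ) / 20 * l / (d + 1)) with hy
  have hypow : y ^ (d + 1) = (2 : ℝ) ^ ((1 : ℝ) / 20 * l) := by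
    rw [hy, ← Real.rpow_natCast, ← Real.rpow_mul (by norm_num)]
    congr 1
    push_cast
    have : ((d : ℝ) + 1) ≠ 0 := by positivity
    field_simp
  have hly : (l : ℝ) ≤ y := by
    rw [← hypow] at hd
    exact le_of_pow_le_pow_left₀ (by omega) (by positivity) hd
  have hy1 : 1 ≤ y := hlr.trans hly
  have hlp : 4 * (p : ℝ) ^ 2 ≤ y := ((le_max_right _ _).trans ((le_max_left _ _).trans hl3r)).trans hly
  have hY : Real.log (2 * C) + 15 * Real.log b + Real.log 2 < y * Real.log (3 / 2) := by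
    have := ((le_max_right _ _).trans hl3r).trans hly
    rw [div_le_iff₀ hl32] at this
    linarith
  set t : ℕ := ⌈y ^ 2⌉₊ with ht
  have ht1 : (t : ℝ) ≤ y ^ 2 + 1 := (Nat.ceil_lt_add_one (by positivity)).le
  have ht2 : y ^ 2 ≤ t := Nat.le_ceil _
  have ht3 : 1 ≤ t := by
    have : (1 : ℝ) ≤ t := by nlinarith
    exact_mod_cast this
  set N : ℕ := ⌈(2 : ℝ) ^ y⌉₊ with hN
  have hN1 : (N : ℝ) ≤ 2 ^ y + 1 := (Nat.ceil_lt_add_one (by positivity)).le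
  set L : ℕ := C * (p * t) ^ (d + 2) with hL
  have hpt : 1 ≤ p * t := Nat.mul_pos hp.pos ht3
  have hpt2 : p * t ≤ (p * t) ^ (d + 2) := Nat.le_self_pow (by omega) _
  have htL : t ≤ L := by
    calc t ≤ p * t := Nat.le_mul_of_pos_left _ hp.pos
      _ ≤ (p * t) ^ (d + 2) := hpt2
      _ ≤ C * (p * t) ^ (d + 2) := Nat.le_mul_of_pos_left _ (by omega)
  have hCL : C ≤ L := Nat.le_mul_of_pos_right _ (Nat.lt_of_lt_of_le hpt hpt2)
  have hNL : N ≤ 2 ^ L := by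
    refine Nat.ceil_le.2 ?_
    push_cast
    rw [← Real.rpow_natCast]
    refine Real.rpow_le_rpow_of_exponent_le (by norm_num) ?_
    have h1 : y ≤ y ^ 2 := by nlinarith
    have h2 : (t : ℝ) ≤ L := by exact_mod_cast htL
    linarith
  have hbig : 32 * b * l * L + 2 ≤ 2 ^ (l / 2) := by
    have h1 : (L : ℝ) ≤ C * ((2 : ℝ) ^ ((1 : ℝ) / 4)) ^ l := by
      have := lens2 (C := C) hp.one_lt.le hypow hy1 hlp ht1
      rw [hL]
      push_cast
      exact this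
    have h2 := hl2 l (by omega)
    set z : ℝ := ((2 : ℝ) ^ ((1 : ℝ) / 4)) ^ l with hz
    have hz1 : 1 ≤ z := one_le_pow₀ ha.le
    have h3 : z ^ 2 ≤ 2 * (2 : ℝ) ^ (l / 2 : ℕ) := by
      have e1 : z ^ 2 = (2 : ℝ) ^ ((l : ℝ) / 2) := by
        rw [hz, ← Real.rpow_natCast, ← Real.rpow_natCast, ← Real.rpow_mul (by positivity), ← Real.rpow_mul (by norm_num)]
        congr 1
        push_cast
        ring
      have e2 : 2 * (2 : ℝ) ^ (l / 2 : ℕ) = (2 : ℝ) ^ (((l / 2 : ℕ) : ℝ) + 1) := by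
        rw [Real.rpow_add (by norm_num), Real.rpow_natCast, Real.rpow_one]
        ring
      rw [e1, e2]
      refine Real.rpow_le_rpow_of_exponent_le (by norm_num) ?_
      have e3 : l ≤ 2 * (l / 2) + 1 := by omega
      have e4 : (l : ℝ) ≤ 2 * ((l / 2 : ℕ) : ℝ) + 1 := by exact_mod_cast e3
      linarith
    have hbr : (1 : ℝ) ≤ b := by exact_mod_cast hb1
    have hCr : (1 : ℝ) ≤ C := by exact_mod_cast (by omega : 1 ≤ C)
    have h4 : 32 * (b : ℝ) * l * L + 2 ≤ 34 * (b * C * l) * z := by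
      have h5 : 32 * (b : ℝ) * l * L ≤ 32 * (b : ℝ) * l * (C * z) := by
        refine mul_le_mul_of_nonneg_left h1 (by positivity)
      have h6 : (1 : ℝ) ≤ b * C * l * z := by
        have h7 : (1 : ℝ) ≤ b * C := one_le_mul_of_one_le_of_one_le hbr hCr
        have h8 : (1 : ℝ) ≤ b * C * l := one_le_mul_of_one_le_of_one_le h7 hlr
        exact one_le_mul_of_one_le_of_one_le h8 hz1
      nlinarith
    have h5 : 34 * ((b : ℝ) * C * l) * z ≤ (2 : ℝ) ^ (l / 2 : ℕ) := by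
      have h6 : 68 * ((b : ℝ) * C * l) ≤ z := by
        calc 68 * ((b : ℝ) * C * l) = 68 * b * C * l := by ring
          _ ≤ z := h2
      nlinarith
    have h6 := h4.trans h5
    exact_mod_cast h6
  obtain ⟨q1, q2, q3⟩ := natpart hb1 hl0 (ht3.trans htL) hCL hNL hbig
  have hGm := hl1 l (by omega) n L hn q1
  have hfin := hC0 d _ _ L _ _ _ N t hGm ht3 ((Nat.mul_le_mul_right _ (Nat.le_succ C0)).trans (le_of_eq hL.symm)) ?_ ?_ q3 π hπ
  · exact (Nat.le_ceil _).trans (by exact_mod_cast hfin.le)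
  · refine lt_of_le_of_lt ?_ (expo2 (C := C) (by omega) hb1 hy1 hly hY hN1 ht2)
    exact Nat.mul_le_mul_right _ (Nat.mul_le_mul_right _ (Nat.mul_le_mul_right _ (Nat.le_succ C0)))
  · exact (Nat.mul_le_mul_right _ (Nat.mul_le_mul_right _ (Nat.le_succ C0))).trans q2

/-- Explicit form of `StatementOF`. -/
def StatementOFx : Prop :=
  ∀ p : ℕ, p.Prime → ∀ S : List (Rule p), (∀ R ∈ S, R.Sound) → ∃ l₀ : ℕ, ∀ l ≥ l₀, ∀ d : ℕ,
    (l : ℝ) ^ (d + 1) ≤ 2 ^ ((l : ℝ) / 20) → ∀ n : ℕ, (2 * p + 4) ^ (5 * l) ≤ n →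
      ∀ π : List (Fm p), Refutes S d (ofphp (n + p ^ l) n) π → (2 : ℝ) ^ ((2 : ℝ) ^ ((l : ℝ) / (20 * (d + 1)))) ≤ psize π

theorem ofx_of (hG : ∀ (p : ℕ) [Fact p.Prime], OutG p) (hM : ∀ (p : ℕ) [Fact p.Prime], OutM p) : StatementOFx := by
  intro p hp S hS
  have : Fact p.Prime := ⟨hp⟩
  obtain ⟨l₀, h⟩ := of_gen hp (H := fun n F L A R del => HasGm p n F L A R del) (hG p) (fun l n => ofphp (n + p ^ l) n) (fun l n => (n + p ^ l) * n) (hM p) S hS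
  refine ⟨l₀, fun l hl d hd n hn π hπ => ?_⟩
  have e1 : (l : ℝ) / 20 = (1 : ℝ) / 20 * l := by ring
  have e2 : (l : ℝ) / (20 * (d + 1)) = (1 : ℝ) / 20 * l / (d + 1) := by
    have : ((d : ℝ) + 1) ≠ 0 := by positivity
    field_simp
  rw [e2]
  exact h l hl d (by rw [← e1]; exact hd) n hn π hπ

theorem of_of (hG : ∀ (p : ℕ) [Fact p.Prime], OutG p) (hM : ∀ (p : ℕ) [Fact p.Prime], OutM p) : StatementOF := by
  intro p hp
  have : Fact p.Prime := ⟨hp⟩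
  exact ⟨1 / 20, by norm_num, fun S hS =>
    of_gen hp (H := fun n F L A R del => HasGm p n F L A R del) (hG p) (fun l n => ofphp (n + p ^ l) n) (fun l n => (n + p ^ l) * n) (hM p) S hS⟩

end PPh
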